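import Pool.Agent.Q50.MF.Main

/-!
# The abelian variety of a newform from congruences modulo infinitely many primes

Let `f` be a Hilbert newform of parallel weight 2 with trivial character over a totally real field `F`,
without complex multiplication. It has an associated abelian variety `A_f` if and only if for some
finite set `S` of places and some `d` there are, for infinitely many prime numbers `p`: an abelian
variety `A` over `F` of dimension at most `d` with real multiplication and good reduction outside
`S`; a prime `λ` above `p`; a finite Galois extension `L` of `F` without quadratic extensions of `F`,
over which the representation of `f` modulo `λ` is irreducible; and an element `τ` of `Gal(L/F)`, such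
that the Frobenius trace of `A` is congruent to the eigenvalue of `f` modulo `λ` for more than `7/8` of
the places whose Frobenius class in `Gal(L/F)` is the one of `τ`.

The variety `A`, its field of multiplications, `λ`, `L` and `τ` may depend on `p`, the sets of places
for different `p` may be disjoint, and each of them may have an arbitrarily small density. The usual
congruences with newforms of other levels (raising the level) do not have the bounded set `S`.

Proved in Lean: the theorem on representations of finite groups in any characteristic whose traces
agree on most elements of a coset, and the passage to characteristic zero.
-/

set_option autoImplicit false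
set_option linter.ambiguousOpen false

universe u

namespace Pool.Agent.Results.MP_6cbef8_nt.InfinitelyManyCongruences

open Pool.Agent.Q50.ES Pool.Agent.Q50.ES.MF

/-- **Abelian varieties of newforms from congruences.** (0) Unconditional: two
representations of dimension `n > 0` of a finite group over any field, the first one absolutely
irreducible on a subgroup `N`, whose traces differ on less than `|N| / (2 n ^ 2)` elements of a coset of
`N` are isomorphic on `N`. (1) Let `f` be a newform without complex
multiplication over a totally real field. Then `A_f` exists if and only if `f` is congruent, at more
than `7/8` of the places of one Frobenius class, to abelian varieties of bounded dimension with real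
multiplication and good reduction outside a fixed finite set, modulo infinitely many prime numbers.
(2) Q1 is true if and only if all newforms without complex multiplication and of even level over
totally real fields of even degree have this property. -/
theorem result :
    (∀ (k : Type u) [Field k] (G : Type) [Group G] [Finite G] (n : ℕ)
      (ρ σ : G →* Matrix (Fin n) (Fin n) k) (N : Subgroup G) (t : G), 0 < n →
      (∀ a, a ∈ Submodule.span k (ρ '' N)) →
      2 * n ^ 2 * {x | x ∈ N ∧ (ρ (t * x)).trace ≠ (σ (t * x)).trace}.ncard < (N : Set G).ncard →
      ∃ P : GL (Fin n) k, ∀ g ∈ N, σ g = (P : Matrix (Fin n) (Fin n) k) * ρ g *
        ((P⁻¹ : GL (Fin n) k) : Matrix (Fin n) (Fin n) k)) ∧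
    ∀ T : MF.Data, T.Facts →
      (∀ F, TotallyReal F → ∀ f : T.Form F, ¬ T.CM f → (T.Associated f ↔ T.CongruentMany f)) ∧
      ((∀ F, TotallyReal F → EvenDegree F → ∀ f : T.Form F, T.Even f → T.Associated f) ↔
        ∀ F, TotallyReal F → EvenDegree F → ∀ f : T.Form F, T.Even f → ¬ T.CM f →
          T.CongruentMany f) :=
  ⟨fun _ _ _ _ _ _ ρ σ N t hn hspan hcard => MC.iso_of_traces hn ρ σ N t hspan hcard,
    fun _ hT => ⟨fun _ hF f hf => MF.Data.associated_iff hT hF f hf, MF.Data.all_iff hT⟩⟩

end Pool.Agent.Results.MP_6cbef8_nt.InfinitelyManyCongruences
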