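import Pool.Agent.Q50.ES.PMain

/-!
# Abelian varieties with the Frobenius traces of a newform at a positive proportion of the places

Let `f` be a Hilbert newform of parallel weight 2 with trivial character and without complex
multiplication over a totally real field `F`. There is a simple abelian variety over `F` with the
`L`-function `∏ L(f^τ, s)` if and only if over some finite Galois extension `L` of `F` (totally real or
not) there is an abelian variety of dimension `[E : ℚ]` with an action of a number field `E ⊇ M_f`
whose Frobenius traces are those of `f` for a set of places of `L` of positive upper density.

So the conjecture for all newforms over totally real fields of even degree with even exponents of the
level is equivalent to this for the newforms of level one without complex multiplication over the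
totally real fields of even degree which contain a given totally real solvable field.

Proved in Lean: two representations of dimension two whose traces agree on a coset of an open subgroup
are isomorphic on this subgroup if one of them is irreducible there; and the descent from `L` to `F`.
-/

set_option autoImplicit false

universe u

namespace Pool.Agent.Results.MP_6cbef8_nt.PositiveDensityDecides

open Pool.Agent.Q50.ES NumberField

/-- **A positive proportion of the places of an extension decides.** (1) The newform `f` over the totally
real field `F`, without complex multiplication, has an associated abelian variety if and only if over
a finite Galois extension of `F` there is an abelian variety with real multiplication by a number field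
containing the coefficients of `f` whose Frobenius traces agree with those of `f` on a set of places
of positive upper density. (2) The conjecture for all newforms over totally real fields of even degree
with even exponents of the level holds if and only if this is true for the newforms of level one
without complex multiplication over those of these fields which contain `M₀`. -/
theorem result {K : Type u} [Field K] [TopologicalSpace K] [IsTopologicalRing K] [T1Space K]
    (T : PData K) (hT : T.Facts) (M₀ : Fld) (hM : TotallyReal M₀) (hG : SolvableGalois M₀) :
    (∀ F, TotallyReal F → ∀ f : T.Form F, ¬ T.CM f → (T.Associated f ↔ T.Approximated f)) ∧
    ((∀ F, TotallyReal F → EvenDegree F → ∀ f : T.Form F,
        EvenLevel (T.level f) → T.Associated f) ↔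
      ∀ F, TotallyReal F → EvenDegree F → M₀ ≤ F → ∀ f : T.Form F,
        UnitIdeal (T.level f) → ¬ T.CM f → T.Approximated f) :=
  ⟨fun _ hF f hf => PData.associated_iff hT hF f hf, PData.all_iff hT hM hG⟩

end Pool.Agent.Results.MP_6cbef8_nt.PositiveDensityDecides
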